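import Mathlib

/-!
# MP_5adcc8_co: inserting empty lines does not preserve boundedness

Interval minors of binary matrices.  Let `P_g` be the `(g+2) x 3` pattern obtained from the
permutation matrix with rows `(010,100,001)` by inserting `g - 1` empty rows between its last two
rows, and `R_g` the pattern obtained in the same way from the matrix with rows `(001,100,010)`.
We prove: `Av({P_a, R_a})` is bounded for every `a ≥ 1`, while `Av({P_a, R_b})` is not row-bounded
for `1 ≤ a < b`.  So inserting empty rows can destroy boundedness and can also create it.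
-/

namespace Pool.Agent.Results.MP_5adcc8_co.PlusFails

/-- A binary matrix: number of rows, number of columns, entries (`true` is `1`). -/
structure BMat where
  r : ℕ
  c : ℕ
  e : Fin r → Fin c → Bool

/-- One contraction: two adjacent rows (or columns) are merged into one, whose entries are the
maxima of the merged entries. -/
inductive Step : BMat → BMat → Prop
  | row {m n : ℕ} (A : Fin (m + 1) → Fin n → Bool) (i : Fin m) :
      Step ⟨m + 1, n, A⟩ ⟨m, n, fun a b =>
        if a < i then A a.castSucc b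
        else if a = i then (A i.castSucc b || A i.succ b) else A a.succ b⟩
  | col {m n : ℕ} (A : Fin m → Fin (n + 1) → Bool) (j : Fin n) :
      Step ⟨m, n + 1, A⟩ ⟨m, n, fun a b =>
        if b < j then A a b.castSucc
        else if b = j then (A a j.castSucc || A a j.succ) else A a b.succ⟩

/-- `P` is an interval minor of `M`: a sequence of contractions turns `M` into a matrix of the
size of `P` which has a `1` wherever `P` has a `1`. -/
def IntervalMinor (P M : BMat) : Prop :=
  ∃ A : Fin P.r → Fin P.c → Bool, Relation.ReflTransGen Step M ⟨P.r, P.c, A⟩ ∧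
    ∀ a b, P.e a b = true → A a b = true

/-- The class `Av(F)`. -/
def Av (F : Set BMat) : Set BMat := {M | ∀ P ∈ F, ¬ IntervalMinor P M}

/-- `M` with the entry in position `(i, j)` changed to `1`. -/
def setOne (M : BMat) (i : Fin M.r) (j : Fin M.c) : BMat :=
  ⟨M.r, M.c, fun a b => if a = i ∧ b = j then true else M.e a b⟩

/-- `M` is critical for the class `C`. -/
def Critical (C : Set BMat) (M : BMat) : Prop :=
  M ∈ C ∧ ∀ i j, M.e i j = false → setOne M i j ∉ C

/-- The number of `0`-runs of a line: maximal blocks `[p.1, p.2]` of consecutive `0`-entries. -/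
def zeroRuns {n : ℕ} (v : Fin n → Bool) : ℕ :=
  (Finset.univ.filter (fun p : Fin n × Fin n => p.1 ≤ p.2 ∧
    (∀ j, p.1 ≤ j → j ≤ p.2 → v j = false) ∧
    (∀ j : Fin n, j.val + 1 = p.1.val → v j = true) ∧
    (∀ j : Fin n, j.val = p.2.val + 1 → v j = true))).card

/-- The row-complexity of `C` is finite. -/
def RowBounded (C : Set BMat) : Prop :=
  ∃ K, ∀ M, Critical C M → ∀ i : Fin M.r, zeroRuns (fun j => M.e i j) ≤ K

/-- The column-complexity of `C` is finite. -/
def ColBounded (C : Set BMat) : Prop :=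
  ∃ K, ∀ M, Critical C M → ∀ j : Fin M.c, zeroRuns (fun i => M.e i j) ≤ K

/-- `C` is bounded. -/
def Bounded (C : Set BMat) : Prop := RowBounded C ∧ ColBounded C

/-- `P'` is obtained from `P` by inserting empty rows and columns at arbitrary positions. -/
def Inserts (P P' : BMat) : Prop :=
  ∃ (ρ : Fin P.r → Fin P'.r) (κ : Fin P.c → Fin P'.c), StrictMono ρ ∧ StrictMono κ ∧
    (∀ a b, P'.e (ρ a) (κ b) = P.e a b) ∧
    (∀ a' b', (a' ∉ Set.range ρ ∨ b' ∉ Set.range κ) → P'.e a' b' = false)

/-- `F'` is obtained from `F` by replacing each `P ∈ F` by a pattern obtained from `P` by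
inserting empty rows and columns. -/
def IsPlus (F F' : Set BMat) : Prop :=
  ∃ φ : BMat → BMat, (∀ P ∈ F, Inserts P (φ P)) ∧ F' = φ '' F

/-- The `(g+2) x 3` pattern with its three `1`-entries at `(0,p)`, `(1,q)`, `(g+1,s)`. -/
def pat (g : ℕ) (p q s : Fin 3) : BMat :=
  ⟨g + 2, 3, fun x y => decide ((x.val = 0 ∧ y = p) ∨ (x.val = 1 ∧ y = q) ∨
    (x.val = g + 1 ∧ y = s))⟩

/-- The pair `{P_a, R_b}`: rows `(010,100,001)` with `a - 1` empty rows inserted after the second
row, and rows `(001,100,010)` with `b - 1` empty rows inserted after the second row. -/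
def Fam (a b : ℕ) : Set BMat := {pat a 1 0 2, pat b 2 0 1}

/-! ### Contractions and monotone surjections -/

/-- transposition -/
def tr (M : BMat) : BMat := ⟨M.c, M.r, fun b a => M.e a b⟩

lemma step_tr {M N : BMat} (h : Step M N) : Step (tr M) (tr N) := by
  cases h with
  | row A i => exact Step.col (fun b a => A a b) i
  | col A j => exact Step.row (fun b a => A a b) j

lemma refl_tr {M N : BMat} (h : Relation.ReflTransGen Step M N) :
    Relation.ReflTransGen Step (tr M) (tr N) := by
  induction h with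
  | refl => exact Relation.ReflTransGen.refl
  | tail _ h2 ih => exact ih.tail (step_tr h2)

/-- collapse `i` and `i+1` -/
def coll {m : ℕ} (i : Fin m) (x : Fin (m + 1)) : Fin m :=
  ⟨if x.val ≤ i.val then x.val else x.val - 1, by
    have := i.isLt; have := x.isLt; split_ifs <;> omega⟩

lemma coll_mono {m : ℕ} (i : Fin m) : Monotone (coll i) := by
  intro x y h
  have h' : x.val ≤ y.val := h
  show (coll i x).val ≤ (coll i y).val
  unfold coll
  simp only
  split_ifs <;> omega

lemma coll_surj {m : ℕ} (i : Fin m) : Function.Surjective (coll i) := by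
  intro a
  by_cases h : a.val ≤ i.val
  · refine ⟨a.castSucc, ?_⟩
    apply Fin.ext
    simp [coll, h]
  · refine ⟨a.succ, ?_⟩
    apply Fin.ext
    have : ¬ (a.val + 1 ≤ i.val) := by omega
    simp [coll, this]

def Rel (M N : BMat) : Prop :=
  ∃ (α : Fin M.r → Fin N.r) (β : Fin M.c → Fin N.c), Monotone α ∧ Function.Surjective α ∧
    Monotone β ∧ Function.Surjective β ∧
    ∀ a b, N.e a b = true → ∃ i j, α i = a ∧ β j = b ∧ M.e i j = true

lemma rel_refl (M : BMat) : Rel M M :=
  ⟨id, id, monotone_id, Function.surjective_id, monotone_id, Function.surjective_id,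
    fun a b h => ⟨a, b, rfl, rfl, h⟩⟩

lemma rel_trans {M N K : BMat} (h : Rel M N) (h' : Rel N K) : Rel M K := by
  obtain ⟨α, β, a1, a2, b1, b2, hh⟩ := h
  obtain ⟨α', β', a1', a2', b1', b2', hh'⟩ := h'
  refine ⟨α' ∘ α, β' ∘ β, a1'.comp a1, a2'.comp a2, b1'.comp b1, b2'.comp b2, ?_⟩
  intro a b hab
  obtain ⟨i, j, hi, hj, hij⟩ := hh' a b hab
  obtain ⟨i', j', hi', hj', hij'⟩ := hh i j hij
  exact ⟨i', j', by simp [hi', hi], by simp [hj', hj], hij'⟩

lemma rel_tr {M N : BMat} (h : Rel M N) : Rel (tr M) (tr N) := by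
  obtain ⟨α, β, a1, a2, b1, b2, hh⟩ := h
  exact ⟨β, α, b1, b2, a1, a2, fun a b hab => by
    obtain ⟨i, j, hi, hj, hij⟩ := hh b a hab
    exact ⟨j, i, hj, hi, hij⟩⟩

lemma rel_row {m n : ℕ} (A : Fin (m + 1) → Fin n → Bool) (i : Fin m) :
    Rel ⟨m + 1, n, A⟩ ⟨m, n, fun a b =>
        if a < i then A a.castSucc b
        else if a = i then (A i.castSucc b || A i.succ b) else A a.succ b⟩ := by
  refine ⟨coll i, id, coll_mono i, coll_surj i, monotone_id, Function.surjective_id, ?_⟩
  intro a b hab
  simp only at hab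
  split_ifs at hab with h1 h2
  · refine ⟨a.castSucc, b, ?_, rfl, hab⟩
    apply Fin.ext
    have : a.val ≤ i.val := le_of_lt h1
    simp [coll, this]
  · simp only [Bool.or_eq_true] at hab
    rcases hab with hab | hab
    · refine ⟨i.castSucc, b, ?_, rfl, hab⟩
      apply Fin.ext
      simp [coll, h2]
    · refine ⟨i.succ, b, ?_, rfl, hab⟩
      apply Fin.ext
      simp [coll, h2]
  · refine ⟨a.succ, b, ?_, rfl, hab⟩
    apply Fin.ext
    have : ¬ (a.val + 1 ≤ i.val) := by
      intro h
      exact h1 (by show a.val < i.val; omega)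
    simp [coll, this]

lemma rel_step {M N : BMat} (h : Step M N) : Rel M N := by
  cases h with
  | row A i => exact rel_row A i
  | col A j => exact rel_tr (rel_row (fun b a => A a b) j)

lemma rel_of_refl {M N : BMat} (h : Relation.ReflTransGen Step M N) : Rel M N := by
  induction h with
  | refl => exact rel_refl M
  | tail _ h2 ih => exact rel_trans ih (rel_step h2)

lemma contract_rows : ∀ (d : ℕ) {m k n : ℕ} (A : Fin m → Fin n → Bool) (α : Fin m → Fin k),
    Monotone α → Function.Surjective α → m = k + d →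
    ∃ A' : Fin k → Fin n → Bool, Relation.ReflTransGen Step ⟨m, n, A⟩ ⟨k, n, A'⟩ ∧
      ∀ i b, A i b = true → A' (α i) b = true := by
  intro d
  induction d with
  | zero =>
    intro m k n A α hm hs hd
    have hmk : m = k := by simpa using hd
    subst hmk
    have hinj : Function.Injective α := Finite.injective_iff_surjective.mpr hs
    have hstr : StrictMono α := hm.strictMono_of_injective hinj
    have hid : α = id := by
      rw [← StrictMono.range_inj hstr strictMono_id, hs.range_eq]
      simp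
    subst hid
    exact ⟨A, Relation.ReflTransGen.refl, fun i b h => h⟩
  | succ d ih =>
    intro m k n A α hm hs hd
    obtain ⟨m', rfl⟩ : ∃ m', m = m' + 1 := ⟨k + d, by omega⟩
    have hex : ∃ i : Fin m', α i.castSucc = α i.succ := by
      by_contra hne
      push Not at hne
      have hstr : StrictMono α := by
        rw [Fin.strictMono_iff_lt_succ]
        intro i
        exact lt_of_le_of_ne (hm (by show i.val ≤ i.val + 1; omega)) (hne i)
      have := Fintype.card_le_of_injective α hstr.injective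
      simp at this
      omega
    obtain ⟨i, hi⟩ := hex
    set A1 : Fin m' → Fin n → Bool := fun a b =>
        if a < i then A a.castSucc b
        else if a = i then (A i.castSucc b || A i.succ b) else A a.succ b with hA1
    set α' : Fin m' → Fin k := fun a => if a.val ≤ i.val then α a.castSucc else α a.succ with hα'
    have hcomp : ∀ x, α' (coll i x) = α x := by
      intro x
      by_cases h : x.val ≤ i.val
      · have h1 : (coll i x).val = x.val := by simp [coll, h]
        have h2 : α' (coll i x) = α (coll i x).castSucc := by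
          simp only [hα']
          rw [if_pos (by omega)]
        rw [h2]
        congr 1
        apply Fin.ext
        simpa using h1
      · have h1 : (coll i x).val = x.val - 1 := by simp [coll, h]
        by_cases h3 : x.val = i.val + 1
        · have h4 : coll i x = i := Fin.ext (by omega)
          have h5 : x = i.succ := Fin.ext (by simpa using h3)
          rw [h4, h5, ← hi]
          simp [hα']
        · have h2 : α' (coll i x) = α (coll i x).succ := by
            simp only [hα']
            rw [if_neg (by omega)]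
          rw [h2]
          congr 1
          apply Fin.ext
          rw [Fin.val_succ]
          omega
    have hmono : Monotone α' := by
      intro a b hab
      have hab' : a.val ≤ b.val := hab
      obtain ⟨x, hx⟩ := coll_surj i a
      obtain ⟨y, hy⟩ := coll_surj i b
      rcases le_total x y with hxy | hxy
      · rw [← hx, ← hy, hcomp, hcomp]
        exact hm hxy
      · have : coll i y ≤ coll i x := coll_mono i hxy
        rw [hx, hy] at this
        have : a = b := le_antisymm hab this
        rw [this]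
    have hsurj : Function.Surjective α' := by
      intro y
      obtain ⟨x, hx⟩ := hs y
      exact ⟨coll i x, by rw [hcomp, hx]⟩
    obtain ⟨A', hA', hA''⟩ := ih A1 α' hmono hsurj (by omega)
    refine ⟨A', Relation.ReflTransGen.head (Step.row A i) hA', ?_⟩
    intro x b hxb
    rw [← hcomp x]
    apply hA''
    by_cases h : x.val ≤ i.val
    · have h1 : (coll i x).val = x.val := by simp [coll, h]
      rcases Nat.lt_or_ge x.val i.val with h2 | h2
      · simp only [hA1]
        rw [if_pos (show (coll i x) < i by show (coll i x).val < i.val; omega)]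
        have : (coll i x).castSucc = x := Fin.ext (by simpa using h1)
        rw [this, hxb]
      · have h3 : coll i x = i := Fin.ext (by omega)
        have h4 : x = i.castSucc := Fin.ext (by simp; omega)
        simp only [hA1]
        rw [h3, if_neg (lt_irrefl _), if_pos rfl, ← h4, hxb]
        rfl
    · have h1 : (coll i x).val = x.val - 1 := by simp [coll, h]
      by_cases h3 : x.val = i.val + 1
      · have h4 : coll i x = i := Fin.ext (by omega)
        have h5 : x = i.succ := Fin.ext (by simpa using h3)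
        simp only [hA1]
        rw [h4, if_neg (lt_irrefl _), if_pos rfl, ← h5, hxb]
        simp
      · simp only [hA1]
        have h6 : ¬ (coll i x < i) := by
          intro h7
          have : (coll i x).val < i.val := h7
          omega
        have h7 : ¬ (coll i x = i) := by
          intro h7
          have : (coll i x).val = i.val := congrArg Fin.val h7
          omega
        rw [if_neg h6, if_neg h7]
        have : (coll i x).succ = x := Fin.ext (by rw [Fin.val_succ]; omega)
        rw [this, hxb]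

lemma contract_cols {m l n : ℕ} (A : Fin m → Fin n → Bool) (β : Fin n → Fin l)
    (hm : Monotone β) (hs : Function.Surjective β) :
    ∃ A' : Fin m → Fin l → Bool, Relation.ReflTransGen Step ⟨m, n, A⟩ ⟨m, l, A'⟩ ∧
      ∀ a j, A a j = true → A' a (β j) = true := by
  have hle : l ≤ n := by simpa using Fintype.card_le_of_surjective β hs
  obtain ⟨A', h1, h2⟩ := contract_rows (n - l) (fun b a => A a b) β hm hs (by omega)
  exact ⟨fun a b => A' b a, refl_tr h1, fun a j h => h2 j a h⟩

lemma im_iff {P M : BMat} : IntervalMinor P M ↔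
    ∃ (α : Fin M.r → Fin P.r) (β : Fin M.c → Fin P.c), Monotone α ∧ Function.Surjective α ∧
    Monotone β ∧ Function.Surjective β ∧
    ∀ a b, P.e a b = true → ∃ i j, α i = a ∧ β j = b ∧ M.e i j = true := by
  constructor
  · rintro ⟨A, h1, h2⟩
    obtain ⟨α, β, a1, a2, b1, b2, hh⟩ := rel_of_refl h1
    exact ⟨α, β, a1, a2, b1, b2, fun a b hab => hh a b (h2 a b hab)⟩
  · rintro ⟨α, β, a1, a2, b1, b2, hh⟩
    have hle : P.r ≤ M.r := by simpa using Fintype.card_le_of_surjective α a2
    obtain ⟨A', h1, h2⟩ := contract_rows (M.r - P.r) M.e α a1 a2 (by omega)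
    obtain ⟨A'', h3, h4⟩ := contract_cols A' β b1 b2
    refine ⟨A'', h1.trans h3, ?_⟩
    intro a b hab
    obtain ⟨i, j, hi, hj, hij⟩ := hh a b hab
    rw [← hi, ← hj]
    exact h4 _ _ (h2 _ _ hij)

/-! ### The patterns in terms of positions -/

lemma mono_surj_le {m k : ℕ} {α : Fin m → Fin k} (hm : Monotone α) (hs : Function.Surjective α)
    {x y : Fin m} (hxy : x ≤ y) : (α y).val - (α x).val ≤ y.val - x.val := by
  have hsub : Finset.Icc (α x) (α y) ⊆ (Finset.Icc x y).image α := by
    intro v hv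
    rw [Finset.mem_Icc] at hv
    obtain ⟨z, hz⟩ := hs v
    rw [Finset.mem_image]
    rcases lt_trichotomy z x with h | h | h
    · refine ⟨x, Finset.mem_Icc.mpr ⟨le_refl _, hxy⟩, ?_⟩
      apply le_antisymm hv.1
      rw [← hz]
      exact hm h.le
    · exact ⟨z, Finset.mem_Icc.mpr ⟨h.ge, h ▸ hxy⟩, hz⟩
    · rcases le_total z y with h' | h'
      · exact ⟨z, Finset.mem_Icc.mpr ⟨h.le, h'⟩, hz⟩
      · refine ⟨y, Finset.mem_Icc.mpr ⟨hxy, le_refl _⟩, ?_⟩
        apply le_antisymm _ hv.2
        rw [← hz]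
        exact hm h'
  have h1 := (Finset.card_le_card hsub).trans Finset.card_image_le
  rw [Fin.card_Icc, Fin.card_Icc] at h1
  have h2 : (α x).val ≤ (α y).val := hm hxy
  have h3 : x.val ≤ y.val := hxy
  omega

/-- submatrix containment implies interval minor containment -/
lemma im_of_sub {P M : BMat} (hr : 0 < P.r) (hc : 0 < P.c) (ρ : Fin P.r → Fin M.r)
    (κ : Fin P.c → Fin M.c) (hρ : StrictMono ρ) (hκ : StrictMono κ)
    (h : ∀ a b, P.e a b = true → M.e (ρ a) (κ b) = true) : IntervalMinor P M := by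
  have key : ∀ {k m : ℕ} (hk : 0 < k) (ρ : Fin k → Fin m), StrictMono ρ →
      ∃ α : Fin m → Fin k, Monotone α ∧ ∀ a, α (ρ a) = a := by
    intro k m hk ρ hρ
    have hlt : ∀ i : Fin m, (Finset.univ.filter
        (fun a : Fin k => (⟨0, hk⟩ : Fin k) < a ∧ ρ a ≤ i)).card < k := by
      intro i
      have h1 : Finset.univ.filter (fun a : Fin k => (⟨0, hk⟩ : Fin k) < a ∧ ρ a ≤ i) ⊂
          Finset.univ := by
        rw [Finset.ssubset_univ_iff]
        intro h
        have : (⟨0, hk⟩ : Fin k) ∈ Finset.univ.filter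
            (fun a : Fin k => (⟨0, hk⟩ : Fin k) < a ∧ ρ a ≤ i) := by
          rw [h]; exact Finset.mem_univ _
        rw [Finset.mem_filter] at this
        exact lt_irrefl _ this.2.1
      simpa using Finset.card_lt_card h1
    refine ⟨fun i => ⟨_, hlt i⟩, ?_, ?_⟩
    · intro x y hxy
      refine Fin.mk_le_mk.mpr (Finset.card_le_card ?_)
      intro a ha
      rw [Finset.mem_filter] at ha ⊢
      exact ⟨ha.1, ha.2.1, ha.2.2.trans hxy⟩
    · intro a
      apply Fin.ext
      show (Finset.univ.filter (fun b : Fin k => (⟨0, hk⟩ : Fin k) < b ∧ ρ b ≤ ρ a)).card = a.val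
      have : Finset.univ.filter (fun b : Fin k => (⟨0, hk⟩ : Fin k) < b ∧ ρ b ≤ ρ a) =
          Finset.Ioc ⟨0, hk⟩ a := by
        ext b
        rw [Finset.mem_filter, Finset.mem_Ioc, hρ.le_iff_le]
        simp
      rw [this, Fin.card_Ioc]
      simp
  obtain ⟨α, hα, hα'⟩ := key hr ρ hρ
  obtain ⟨β, hβ, hβ'⟩ := key hc κ hκ
  rw [im_iff]
  exact ⟨α, β, hα, fun a => ⟨ρ a, hα' a⟩, hβ, fun b => ⟨κ b, hβ' b⟩,
    fun a b hab => ⟨ρ a, κ b, hα' a, hβ' b, h a b hab⟩⟩

lemma third (p q s t : Fin 3) (h1 : p ≠ q) (h2 : p ≠ s) (h3 : q ≠ s) (h4 : t ≠ p) (h5 : t ≠ q) :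
    s = t := by
  rw [ne_eq, Fin.ext_iff] at h1 h2 h3 h4 h5
  apply Fin.ext
  omega

/-- The matrix `M` has the pattern `pat g p q s`, in terms of positions. -/
def Has (g : ℕ) (p q s : Fin 3) (M : BMat) : Prop :=
  ∃ (r1 r2 r3 : Fin M.r) (κ : Fin 3 → Fin M.c), r1 < r2 ∧ r2.val + g ≤ r3.val ∧ StrictMono κ ∧
    M.e r1 (κ p) = true ∧ M.e r2 (κ q) = true ∧ M.e r3 (κ s) = true

lemma has_iff {g : ℕ} (hg : 1 ≤ g) {p q s : Fin 3} (hpq : p ≠ q) (hps : p ≠ s) (hqs : q ≠ s)
    {M : BMat} : IntervalMinor (pat g p q s) M ↔ Has g p q s M := by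
  constructor
  · intro h
    rw [im_iff] at h
    obtain ⟨α, β, a1, a2, b1, b2, hh⟩ := h
    have e1 : (pat g p q s).e ⟨0, by show 0 < g + 2; omega⟩ p = true := by simp [pat]
    have e2 : (pat g p q s).e ⟨1, by show 1 < g + 2; omega⟩ q = true := by simp [pat]
    have e3 : (pat g p q s).e ⟨g + 1, by show g + 1 < g + 2; omega⟩ s = true := by simp [pat]
    obtain ⟨i1, j1, hi1, hj1, h1⟩ := hh _ _ e1
    obtain ⟨i2, j2, hi2, hj2, h2⟩ := hh _ _ e2
    obtain ⟨i3, j3, hi3, hj3, h3⟩ := hh _ _ e3
    have v1 : (α i1).val = 0 := by rw [hi1]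
    have v2 : (α i2).val = 1 := by rw [hi2]
    have v3 : (α i3).val = g + 1 := by rw [hi3]
    have l12 : i1 < i2 := by
      by_contra hc
      have : α i2 ≤ α i1 := a1 (not_lt.mp hc)
      have : (α i2).val ≤ (α i1).val := this
      omega
    have l23 : i2 < i3 := by
      by_contra hc
      have : α i3 ≤ α i2 := a1 (not_lt.mp hc)
      have : (α i3).val ≤ (α i2).val := this
      omega
    have l23' := mono_surj_le a1 a2 l23.le
    have l23'' : i2.val < i3.val := l23
    have hmonoβ : ∀ {x y : Fin M.c}, β x < β y → x < y := by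
      intro x y hxy
      by_contra hc
      exact absurd (b1 (not_lt.mp hc)) (not_le.mpr hxy)
    -- the column choice
    refine ⟨i1, i2, i3, fun t => if t = p then j1 else if t = q then j2 else j3, l12, by omega,
      ?_, ?_, ?_, ?_⟩
    · have hβ : ∀ t : Fin 3, β (if t = p then j1 else if t = q then j2 else j3) = t := by
        intro t
        split_ifs with h4 h5
        · rw [hj1, h4]
        · rw [hj2, h5]
        · rw [hj3]
          exact third p q s t hpq hps hqs h4 h5
      intro x y hxy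
      apply hmonoβ
      rw [hβ, hβ]
      exact hxy
    · simpa using h1
    · simp only [hpq.symm, if_false, if_true]
      exact h2
    · simp only [hps.symm, hqs.symm, if_false]
      exact h3
  · rintro ⟨r1, r2, r3, κ, h12, h23, hκ, h1, h2, h3⟩
    have hr3 := r3.isLt
    have h12' : r1.val < r2.val := h12
    refine im_of_sub (P := pat g p q s) (by show 0 < g + 2; omega) (by show 0 < 3; omega)
      (fun a => if a.val = 0 then r1 else if a.val = g + 1 then r3 else
        ⟨min (r2.val + (a.val - 1)) r3.val, by omega⟩) κ ?_ hκ ?_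
    · intro x y hxy
      have hxy' : x.val < y.val := hxy
      have hx : x.val < g + 2 := x.isLt
      have hy : y.val < g + 2 := y.isLt
      rw [Fin.lt_def]
      dsimp only
      split_ifs <;> (try dsimp only) <;> omega
    · intro a b hab
      simp only [pat, decide_eq_true_eq] at hab
      rcases hab with ⟨ha, hb⟩ | ⟨ha, hb⟩ | ⟨ha, hb⟩
      · simp only [ha, if_true]
        rw [hb]; exact h1
      · have : ¬ (a.val = 0) := by omega
        have h' : ¬ (a.val = g + 1) := by omega
        simp only [this, h', if_false]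
        have : (⟨min (r2.val + (a.val - 1)) r3.val, by omega⟩ : Fin M.r) = r2 := by
          apply Fin.ext
          simp only
          omega
        rw [this, hb]; exact h2
      · have : ¬ (g + 1 = 0) := by omega
        simp only [this, ha, if_false, if_true]
        rw [hb]; exact h3

/-! ### 0-runs -/

lemma run_of_zero {n : ℕ} (v : Fin n → Bool) (z : Fin n) (hz : v z = false) :
    ∃ p : Fin n × Fin n, (p.1 ≤ p.2 ∧
    (∀ j, p.1 ≤ j → j ≤ p.2 → v j = false) ∧
    (∀ j : Fin n, j.val + 1 = p.1.val → v j = true) ∧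
    (∀ j : Fin n, j.val = p.2.val + 1 → v j = true)) ∧ p.1 ≤ z ∧ z ≤ p.2 := by
  classical
  set S : Finset (Fin n) := Finset.univ.filter
    (fun x => x ≤ z ∧ ∀ j, x ≤ j → j ≤ z → v j = false) with hS
  set T : Finset (Fin n) := Finset.univ.filter
    (fun x => z ≤ x ∧ ∀ j, z ≤ j → j ≤ x → v j = false) with hT
  have hzS : z ∈ S := by
    rw [hS, Finset.mem_filter]
    exact ⟨Finset.mem_univ _, le_refl _, fun j h1 h2 => by rw [le_antisymm h2 h1]; exact hz⟩
  have hzT : z ∈ T := by
    rw [hT, Finset.mem_filter]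
    exact ⟨Finset.mem_univ _, le_refl _, fun j h1 h2 => by rw [le_antisymm h2 h1]; exact hz⟩
  have hp := S.min'_mem ⟨z, hzS⟩
  have hq := T.max'_mem ⟨z, hzT⟩
  set p := S.min' ⟨z, hzS⟩ with hpdef
  set q := T.max' ⟨z, hzT⟩ with hqdef
  rw [hS, Finset.mem_filter] at hp
  rw [hT, Finset.mem_filter] at hq
  refine ⟨(p, q), ⟨hp.2.1.trans hq.2.1, ?_, ?_, ?_⟩, hp.2.1, hq.2.1⟩
  · intro j h1 h2
    rcases le_total j z with h | h
    · exact hp.2.2 j h1 h
    · exact hq.2.2 j h h2
  · intro j hj
    by_contra hne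
    have hj0 : v j = false := by simpa using hne
    have hjS : j ∈ S := by
      rw [hS, Finset.mem_filter]
      have hpz : p.val ≤ z.val := hp.2.1
      simp only at hj
      refine ⟨Finset.mem_univ _, by show j.val ≤ z.val; omega, ?_⟩
      intro i h1 h2
      rcases eq_or_lt_of_le h1 with h | h
      · rw [← h]; exact hj0
      · exact hp.2.2 i (by show p.val ≤ i.val; have : j.val < i.val := h; omega) h2
    have := S.min'_le j hjS
    have h' : p.val ≤ j.val := this
    simp only at hj
    omega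
  · intro j hj
    by_contra hne
    have hj0 : v j = false := by simpa using hne
    have hjT : j ∈ T := by
      rw [hT, Finset.mem_filter]
      have hpz : z.val ≤ q.val := hq.2.1
      simp only at hj
      refine ⟨Finset.mem_univ _, by show z.val ≤ j.val; omega, ?_⟩
      intro i h1 h2
      rcases eq_or_lt_of_le h2 with h | h
      · rw [h]; exact hj0
      · exact hq.2.2 i h1 (by show i.val ≤ q.val; have : i.val < j.val := h; omega)
    have := T.le_max' j hjT
    have h' : j.val ≤ q.val := this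
    simp only at hj
    omega

lemma runs_lower {n K : ℕ} (v : Fin n → Bool) (z : Fin K → Fin n) (hz : ∀ a, v (z a) = false)
    (hsep : ∀ a b, a < b → ∃ o, z a < o ∧ o < z b ∧ v o = true) : K ≤ zeroRuns v := by
  classical
  choose f hf using fun a => run_of_zero v (z a) (hz a)
  have hinj : Function.Injective f := by
    have aux : ∀ a b, a < b → f a ≠ f b := by
      intro a b hab heq
      obtain ⟨o, h1, h2, h3⟩ := hsep a b hab
      have h4 := (hf a).1.2.1 o ((hf a).2.1.trans h1.le) (by
        rw [heq]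
        exact h2.le.trans (hf b).2.2)
      rw [h3] at h4
      exact absurd h4 (by simp)
    intro a b heq
    by_contra hne
    rcases lt_or_gt_of_ne hne with h | h
    · exact aux a b h heq
    · exact aux b a h heq.symm
  unfold zeroRuns
  have hcard : (Finset.univ.image f).card = K := by
    rw [Finset.card_image_of_injective _ hinj]
    simp
  rw [← hcard]
  apply Finset.card_le_card
  intro p hp
  rw [Finset.mem_image] at hp
  obtain ⟨a, _, rfl⟩ := hp
  rw [Finset.mem_filter]
  exact ⟨Finset.mem_univ _, (hf a).1⟩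

lemma runs_upper {n K : ℕ} (v : Fin n → Bool) (h : K ≤ zeroRuns v) :
    ∃ z : Fin K → Fin n, (∀ a, v (z a) = false) ∧
      ∀ a b, a < b → ∃ o, z a < o ∧ o < z b ∧ v o = true := by
  classical
  unfold zeroRuns at h
  set R := Finset.univ.filter (fun p : Fin n × Fin n => p.1 ≤ p.2 ∧
    (∀ j, p.1 ≤ j → j ≤ p.2 → v j = false) ∧
    (∀ j : Fin n, j.val + 1 = p.1.val → v j = true) ∧
    (∀ j : Fin n, j.val = p.2.val + 1 → v j = true)) with hR
  have hinj : Set.InjOn Prod.fst (R : Set (Fin n × Fin n)) := by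
    intro p hp p' hp' heq
    rw [hR, Finset.mem_coe, Finset.mem_filter] at hp hp'
    have aux : ∀ p p' : Fin n × Fin n, p.1 = p'.1 → (p.1 ≤ p.2 ∧
        (∀ j, p.1 ≤ j → j ≤ p.2 → v j = false) ∧
        (∀ j : Fin n, j.val + 1 = p.1.val → v j = true) ∧
        (∀ j : Fin n, j.val = p.2.val + 1 → v j = true)) → (p'.1 ≤ p'.2 ∧
        (∀ j, p'.1 ≤ j → j ≤ p'.2 → v j = false) ∧
        (∀ j : Fin n, j.val + 1 = p'.1.val → v j = true) ∧
        (∀ j : Fin n, j.val = p'.2.val + 1 → v j = true)) → ¬ (p.2 < p'.2) := by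
      intro p p' heq hp hp' hlt
      have hlt' : p.2.val < p'.2.val := hlt
      have h1 := hp.2.2.2 ⟨p.2.val + 1, by omega⟩ rfl
      have h2 := hp'.2.1 ⟨p.2.val + 1, by omega⟩ (by
        rw [← heq]
        have : p.1.val ≤ p.2.val := hp.1
        show p.1.val ≤ p.2.val + 1
        omega) (by show p.2.val + 1 ≤ p'.2.val; omega)
      rw [h1] at h2
      exact absurd h2 (by simp)
    have h1 := aux p p' heq hp.2 hp'.2
    have h2 := aux p' p heq.symm hp'.2 hp.2
    exact Prod.ext heq (le_antisymm (not_lt.mp h2) (not_lt.mp h1))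
  have hcard : K ≤ (R.image Prod.fst).card := by
    rw [Finset.card_image_of_injOn hinj]
    exact h
  set z := (R.image Prod.fst).orderEmbOfCardLe hcard with hz
  have hmem : ∀ a, ∃ p ∈ R, p.1 = z a := by
    intro a
    have := Finset.orderEmbOfCardLe_mem (R.image Prod.fst) hcard a
    rw [Finset.mem_image] at this
    exact this
  refine ⟨fun a => z a, ?_, ?_⟩
  · intro a
    obtain ⟨p, hp, hpa⟩ := hmem a
    rw [hR, Finset.mem_filter] at hp
    show v (z a) = false
    rw [← hpa]
    exact hp.2.2.1 p.1 (le_refl _) hp.2.1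
  · intro a b hab
    have hlt : z a < z b := z.strictMono hab
    have hlt' : (z a).val < (z b).val := hlt
    obtain ⟨p, hp, hpa⟩ := hmem a
    obtain ⟨p', hp', hpb⟩ := hmem b
    rw [hR, Finset.mem_filter] at hp hp'
    have hza : v (z a) = false := by
      rw [← hpa]
      exact hp.2.2.1 p.1 (le_refl _) hp.2.1
    have ho : v ⟨(z b).val - 1, by omega⟩ = true := by
      apply hp'.2.2.2.1
      rw [hpb]
      show (z b).val - 1 + 1 = (z b).val
      omega
    refine ⟨⟨(z b).val - 1, by omega⟩, ?_, ?_, ho⟩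
    · show (z a).val < (z b).val - 1
      rcases Nat.lt_or_ge (z a).val ((z b).val - 1) with h1 | h1
      · exact h1
      · exfalso
        have : z a = ⟨(z b).val - 1, by omega⟩ := Fin.ext (by show (z a).val = (z b).val - 1; omega)
        rw [this, ho] at hza
        exact absurd hza (by simp)
    · show (z b).val - 1 < (z b).val
      omega

/-! ### Critical matrices -/

lemma mem_Av_Fam {a b : ℕ} (ha : 1 ≤ a) (hb : 1 ≤ b) {M : BMat} :
    M ∈ Av (Fam a b) ↔ ¬ Has a 1 0 2 M ∧ ¬ Has b 2 0 1 M := by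
  unfold Av Fam
  simp only [Set.mem_ofPred_eq, Set.mem_insert_iff, Set.mem_singleton_iff, forall_eq_or_imp,
    forall_eq]
  rw [has_iff ha (by decide) (by decide) (by decide), has_iff hb (by decide) (by decide) (by decide)]

lemma exists_critical (C : Set BMat) (r c : ℕ) (A : Fin r → Fin c → Bool)
    (hA : (⟨r, c, A⟩ : BMat) ∈ C) : ∃ B : Fin r → Fin c → Bool,
      Critical C ⟨r, c, B⟩ ∧ ∀ i j, A i j = true → B i j = true := by
  classical
  obtain ⟨B, hAB, hB⟩ := Set.Finite.exists_le_maximal
    (Set.toFinite {B : Fin r → Fin c → Bool | (⟨r, c, B⟩ : BMat) ∈ C}) hA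
  refine ⟨B, ⟨hB.1, ?_⟩, ?_⟩
  · intro i j hij hC
    simp only at hij
    have hle : B ≤ (setOne ⟨r, c, B⟩ i j).e := by
      intro a b
      show B a b ≤ (if a = i ∧ b = j then true else B a b)
      split_ifs
      · exact Bool.le_true _
      · exact le_refl _
    have h2 := hB.2 hC hle
    have h3 : (if i = i ∧ j = j then true else B i j) ≤ B i j := h2 i j
    rw [if_pos ⟨rfl, rfl⟩, hij] at h3
    exact absurd h3 (by decide)
  · intro i j h
    have h1 := hAB i j
    rw [h] at h1
    exact Bool.eq_true_of_true_le h1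

lemma setOne_true {M : BMat} {i : Fin M.r} {j : Fin M.c} {a : Fin M.r} {b : Fin M.c}
    (h : (setOne M i j).e a b = true) : (a = i ∧ b = j) ∨ M.e a b = true := by
  have h' : (if a = i ∧ b = j then true else M.e a b) = true := h
  split_ifs at h' with h1
  · exact Or.inl h1
  · exact Or.inr h'

lemma strict3 {m : ℕ} {x y z : Fin m} (h1 : x < y) (h2 : y < z) : StrictMono ![x, y, z] := by
  rw [Fin.strictMono_iff_lt_succ]
  intro i
  fin_cases i
  · exact h1
  · exact h2

/-- `P`-pattern from positions -/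
lemma hasP {g : ℕ} {M : BMat} {r1 r2 r3 : Fin M.r} {c1 c2 c3 : Fin M.c} (h12 : r1 < r2)
    (h23 : r2.val + g ≤ r3.val) (k1 : c1 < c2) (k2 : c2 < c3) (e1 : M.e r1 c2 = true)
    (e2 : M.e r2 c1 = true) (e3 : M.e r3 c3 = true) : Has g 1 0 2 M :=
  ⟨r1, r2, r3, ![c1, c2, c3], h12, h23, strict3 k1 k2, e1, e2, e3⟩

/-- `R`-pattern from positions -/
lemma hasR {g : ℕ} {M : BMat} {r1 r2 r3 : Fin M.r} {c1 c2 c3 : Fin M.c} (h12 : r1 < r2)
    (h23 : r2.val + g ≤ r3.val) (k1 : c1 < c2) (k2 : c2 < c3) (e1 : M.e r1 c3 = true)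
    (e2 : M.e r2 c1 = true) (e3 : M.e r3 c2 = true) : Has g 2 0 1 M :=
  ⟨r1, r2, r3, ![c1, c2, c3], h12, h23, strict3 k1 k2, e1, e2, e3⟩

/-- Changing a zero of a critical matrix creates one of the two patterns. -/
lemma critical_zero {g : ℕ} (hg : 1 ≤ g) {M : BMat} (hM : Critical (Av (Fam g g)) M)
    {i : Fin M.r} {j : Fin M.c} (h : M.e i j = false) :
    (∃ (r1 r2 r3 : Fin M.r) (c1 c2 c3 : Fin M.c), r1 < r2 ∧ r2.val + g ≤ r3.val ∧ c1 < c2 ∧ c2 < c3 ∧
      ((r1 = i ∧ c2 = j) ∨ M.e r1 c2 = true) ∧ ((r2 = i ∧ c1 = j) ∨ M.e r2 c1 = true) ∧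
      ((r3 = i ∧ c3 = j) ∨ M.e r3 c3 = true)) ∨
    (∃ (r1 r2 r3 : Fin M.r) (c1 c2 c3 : Fin M.c), r1 < r2 ∧ r2.val + g ≤ r3.val ∧ c1 < c2 ∧ c2 < c3 ∧
      ((r1 = i ∧ c3 = j) ∨ M.e r1 c3 = true) ∧ ((r2 = i ∧ c1 = j) ∨ M.e r2 c1 = true) ∧
      ((r3 = i ∧ c2 = j) ∨ M.e r3 c2 = true)) := by
  have h1 := hM.2 i j h
  rw [mem_Av_Fam hg hg] at h1
  rw [not_and_or, not_not, not_not] at h1
  rcases h1 with h1 | h1
  · left
    obtain ⟨r1, r2, r3, κ, h12, h23, hκ, e1, e2, e3⟩ := h1
    exact ⟨r1, r2, r3, κ 0, κ 1, κ 2, h12, h23, hκ (by decide), hκ (by decide),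
      setOne_true e1, setOne_true e2, setOne_true e3⟩
  · right
    obtain ⟨r1, r2, r3, κ, h12, h23, hκ, e1, e2, e3⟩ := h1
    exact ⟨r1, r2, r3, κ 0, κ 1, κ 2, h12, h23, hκ (by decide), hκ (by decide),
      setOne_true e1, setOne_true e2, setOne_true e3⟩

lemma row_bound {g : ℕ} (hg : 1 ≤ g) {M : BMat} (hM : Critical (Av (Fam g g)) M) (i : Fin M.r) :
    zeroRuns (fun j => M.e i j) ≤ 3 := by
  by_contra hcon
  obtain ⟨z, hz, hsep⟩ := runs_upper (K := 4) (fun j => M.e i j) (by omega)
  obtain ⟨oL, hL1, hL2, hL3⟩ := hsep 0 1 (by decide)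
  obtain ⟨o, ho1, ho2, ho3⟩ := hsep 1 2 (by decide)
  obtain ⟨o', ho1', ho2', ho3'⟩ := hsep 2 3 (by decide)
  have hav := (mem_Av_Fam hg hg).mp hM.1
  have hoo : o < o' := ho2.trans ho1'
  have hzo : z 1 < o := ho1
  have hzo' : z 1 < o' := ho1.trans hoo
  -- the entry at `z 1`
  set j := z 1 with hj
  rcases critical_zero hg hM (hz 1) with
    ⟨r1, r2, r3, c1, c2, c3, h12, h23, k1, k2, e1, e2, e3⟩ |
    ⟨r1, r2, r3, c1, c2, c3, h12, h23, k1, k2, e1, e2, e3⟩
  · -- `P`
    have h23' : r2 < r3 := by show r2.val < r3.val; omega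
    rcases e2 with ⟨hr, hc⟩ | e2
    · -- middle role
      have e1' : M.e r1 c2 = true := by
        rcases e1 with ⟨hr', _⟩ | e1
        · rw [hr', hr] at h12; exact absurd h12 (lt_irrefl _)
        · exact e1
      have e3' : M.e r3 c3 = true := by
        rcases e3 with ⟨hr', _⟩ | e3
        · rw [hr', hr] at h23'; exact absurd h23' (lt_irrefl _)
        · exact e3
      refine hav.1 (hasP h12 h23 (c1 := oL) ?_ k2 e1' ?_ e3')
      · exact lt_trans (show oL < c1 by rw [hc]; exact hL2) k1
      · rw [hr]; exact hL3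
    · rcases e3 with ⟨hr, hc⟩ | e3
      · have e1' : M.e r1 c2 = true := by
          rcases e1 with ⟨hr', _⟩ | e1
          · rw [hr', ← hr] at h12; exact absurd (h12.trans h23') (lt_irrefl _)
          · exact e1
        refine hav.1 (hasP h12 h23 k1 (c3 := o) ?_ e1' e2 ?_)
        · rw [hc] at k2; exact k2.trans hzo
        · rw [hr]; exact ho3
      · rcases e1 with ⟨hr, hc⟩ | e1
        · -- top role
          have key : ∀ f, j < f → M.e i f = true → f = c3 := by
            intro f hf1 hf2
            rcases lt_trichotomy f c3 with h | h | h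
            · exfalso
              refine hav.1 (hasP h12 h23 (c2 := f) ?_ h ?_ e2 e3)
              · rw [hc] at k1; exact k1.trans hf1
              · rw [hr]; exact hf2
            · exact h
            · exfalso
              refine hav.2 (hasR h12 h23 (k1.trans k2) h ?_ e2 e3)
              rw [hr]; exact hf2
          have h1 := key o hzo ho3
          have h2 := key o' hzo' ho3'
          rw [h1, h2] at hoo
          exact lt_irrefl _ hoo
        · exact hav.1 (hasP h12 h23 k1 k2 e1 e2 e3)
  · -- `R`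
    have h23' : r2 < r3 := by show r2.val < r3.val; omega
    rcases e2 with ⟨hr, hc⟩ | e2
    · have e1' : M.e r1 c3 = true := by
        rcases e1 with ⟨hr', _⟩ | e1
        · rw [hr', hr] at h12; exact absurd h12 (lt_irrefl _)
        · exact e1
      have e3' : M.e r3 c2 = true := by
        rcases e3 with ⟨hr', _⟩ | e3
        · rw [hr', hr] at h23'; exact absurd h23' (lt_irrefl _)
        · exact e3
      refine hav.2 (hasR h12 h23 (c1 := oL) ?_ k2 e1' ?_ e3')
      · exact lt_trans (show oL < c1 by rw [hc]; exact hL2) k1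
      · rw [hr]; exact hL3
    · rcases e1 with ⟨hr, hc⟩ | e1
      · have e3' : M.e r3 c2 = true := by
          rcases e3 with ⟨hr', _⟩ | e3
          · rw [hr, ← hr'] at h12; exact absurd (h12.trans h23') (lt_irrefl _)
          · exact e3
        refine hav.2 (hasR h12 h23 k1 (c3 := o) ?_ ?_ e2 e3')
        · rw [hc] at k2; exact k2.trans hzo
        · rw [hr]; exact ho3
      · rcases e3 with ⟨hr, hc⟩ | e3
        · -- bottom role
          have key : ∀ f, j < f → M.e i f = true → f = c3 := by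
            intro f hf1 hf2
            rcases lt_trichotomy f c3 with h | h | h
            · exfalso
              refine hav.2 (hasR h12 h23 (c2 := f) ?_ h e1 e2 ?_)
              · rw [hc] at k1; exact k1.trans hf1
              · rw [hr]; exact hf2
            · exact h
            · exfalso
              refine hav.1 (hasP h12 h23 (k1.trans k2) h e1 e2 ?_)
              rw [hr]; exact hf2
          have h1 := key o hzo ho3
          have h2 := key o' hzo' ho3'
          rw [h1, h2] at hoo
          exact lt_irrefl _ hoo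
        · exact hav.2 (hasR h12 h23 k1 k2 e1 e2 e3)

/-- the pair of one-entries to the right of a middle zero of a column -/
lemma col_mid {g : ℕ} (hg : 1 ≤ g) {M : BMat} (hM : Critical (Av (Fam g g)) M) {c : Fin M.c}
    {z up dn : Fin M.r} (hz : M.e z c = false) (hup : up < z) (hup' : M.e up c = true)
    (hdn : z < dn) (hdn' : M.e dn c = true) :
    ∃ (u v : Fin M.r) (p q : Fin M.c), u < z ∧ z.val + g ≤ v.val ∧ c < p ∧ c < q ∧ p ≠ q ∧
      M.e u p = true ∧ M.e v q = true := by
  have hav := (mem_Av_Fam hg hg).mp hM.1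
  have hdnv : z.val < dn.val := hdn
  rcases critical_zero hg hM hz with
    ⟨r1, r2, r3, c1, c2, c3, h12, h23, k1, k2, e1, e2, e3⟩ |
    ⟨r1, r2, r3, c1, c2, c3, h12, h23, k1, k2, e1, e2, e3⟩
  · have h23' : r2 < r3 := by show r2.val < r3.val; omega
    rcases e1 with ⟨hr, hc⟩ | e1
    · exfalso
      have e2' : M.e r2 c1 = true := by
        rcases e2 with ⟨_, hc'⟩ | e2
        · rw [hc', hc] at k1; exact absurd k1 (lt_irrefl _)
        · exact e2
      have e3' : M.e r3 c3 = true := by
        rcases e3 with ⟨_, hc'⟩ | e3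
        · rw [hc', hc] at k2; exact absurd k2 (lt_irrefl _)
        · exact e3
      refine hav.1 (hasP (r1 := up) ?_ h23 k1 k2 ?_ e2' e3')
      · rw [hr] at h12; exact hup.trans h12
      · rw [hc]; exact hup'
    · rcases e3 with ⟨hr, hc⟩ | e3
      · exfalso
        have e2' : M.e r2 c1 = true := by
          rcases e2 with ⟨_, hc'⟩ | e2
          · rw [hc', ← hc] at k1; exact absurd (k1.trans k2) (lt_irrefl _)
          · exact e2
        refine hav.1 (hasP (r3 := dn) h12 ?_ k1 k2 e1 e2' ?_)
        · rw [hr] at h23; omega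
        · rw [hc]; exact hdn'
      · rcases e2 with ⟨hr, hc⟩ | e2
        · subst hr hc
          exact ⟨r1, r3, c2, c3, h12, h23, k1, k1.trans k2, ne_of_lt k2, e1, e3⟩
        · exact absurd (hasP h12 h23 k1 k2 e1 e2 e3) hav.1
  · have h23' : r2 < r3 := by show r2.val < r3.val; omega
    rcases e1 with ⟨hr, hc⟩ | e1
    · exfalso
      have e2' : M.e r2 c1 = true := by
        rcases e2 with ⟨_, hc'⟩ | e2
        · rw [hc', ← hc] at k1; exact absurd (k1.trans k2) (lt_irrefl _)
        · exact e2
      have e3' : M.e r3 c2 = true := by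
        rcases e3 with ⟨_, hc'⟩ | e3
        · rw [hc', hc] at k2; exact absurd k2 (lt_irrefl _)
        · exact e3
      refine hav.2 (hasR (r1 := up) ?_ h23 k1 k2 ?_ e2' e3')
      · rw [hr] at h12; exact hup.trans h12
      · rw [hc]; exact hup'
    · rcases e3 with ⟨hr, hc⟩ | e3
      · exfalso
        have e2' : M.e r2 c1 = true := by
          rcases e2 with ⟨_, hc'⟩ | e2
          · rw [hc', hc] at k1; exact absurd k1 (lt_irrefl _)
          · exact e2
        refine hav.2 (hasR (r3 := dn) h12 ?_ k1 k2 e1 e2' ?_)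
        · rw [hr] at h23; omega
        · rw [hc]; exact hdn'
      · rcases e2 with ⟨hr, hc⟩ | e2
        · subst hr hc
          exact ⟨r1, r3, c3, c2, h12, h23, k1.trans k2, k1, ne_of_gt k2, e1, e3⟩
        · exact absurd (hasR h12 h23 k1 k2 e1 e2 e3) hav.2

/-- one-entries to the right of a one-entry of a column, above and (at distance) below it -/
lemma col_one {g : ℕ} (hg : 1 ≤ g) {M : BMat} (hM : M ∈ Av (Fam g g)) {c : Fin M.c}
    {f : Fin M.r} (hf : M.e f c = true) {u v : Fin M.r} {p q : Fin M.c} (hu : u < f)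
    (hv : f.val + g ≤ v.val) (hp : c < p) (hq : c < q) (h1 : M.e u p = true)
    (h2 : M.e v q = true) : p = q := by
  have hav := (mem_Av_Fam hg hg).mp hM
  rcases lt_trichotomy p q with h | h | h
  · exact absurd (hasP hu hv hp h h1 hf h2) hav.1
  · exact h
  · exact absurd (hasR hu hv hq h h1 hf h2) hav.2

lemma sep_strict {n K : ℕ} {v : Fin n → Bool} {z : Fin K → Fin n}
    (hsep : ∀ a b, a < b → ∃ o, z a < o ∧ o < z b ∧ v o = true) {a : ℕ} :
    ∀ (d : ℕ) (h : a + d < K), (z ⟨a, by omega⟩).val + d ≤ (z ⟨a + d, h⟩).val := by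
  intro d
  induction d with
  | zero => intro h; simp
  | succ d ih =>
    intro h
    have h1 := ih (by omega)
    obtain ⟨o, ho1, ho2, _⟩ := hsep ⟨a + d, by omega⟩ ⟨a + (d + 1), h⟩ (by
      show a + d < a + (d + 1); omega)
    have h2 : (z ⟨a + d, by omega⟩).val < o.val := ho1
    have h3 : o.val < (z ⟨a + (d + 1), h⟩).val := ho2
    omega

lemma col_bound {g : ℕ} (hg : 1 ≤ g) {M : BMat} (hM : Critical (Av (Fam g g)) M) (c : Fin M.c) :
    zeroRuns (fun i => M.e i c) ≤ g + 3 := by
  by_contra hcon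
  obtain ⟨z, hz, hsep⟩ := runs_upper (K := g + 4) (fun i => M.e i c) (by omega)
  have lt : ∀ {a b : ℕ} (h : a < b) (hb : b < g + 4), (⟨a, by omega⟩ : Fin (g + 4)) < ⟨b, hb⟩ :=
    fun h hb => h
  obtain ⟨o0, a1, a2, a3⟩ := hsep _ _ (lt (show 0 < 1 by omega) (by omega))
  obtain ⟨o1, b1, b2, b3⟩ := hsep _ _ (lt (show 1 < 2 by omega) (by omega))
  obtain ⟨o2, c1, c2, c3⟩ := hsep _ _ (lt (show g + 1 < g + 2 by omega) (by omega))
  obtain ⟨o3, d1, d2, d3⟩ := hsep _ _ (lt (show g + 2 < g + 3 by omega) (by omega))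
  have hst := sep_strict (a := 2) (v := fun i => M.e i c) hsep (g - 1) (by omega)
  have heq : (⟨2 + (g - 1), by omega⟩ : Fin (g + 4)) = ⟨g + 1, by omega⟩ := Fin.ext (by
    show 2 + (g - 1) = g + 1; omega)
  rw [heq] at hst
  have b2' : o1.val < (z ⟨2, by omega⟩).val := b2
  have b1' : (z ⟨1, by omega⟩).val < o1.val := b1
  have c1' : (z ⟨g + 1, by omega⟩).val < o2.val := c1
  have c2' : o2.val < (z ⟨g + 2, by omega⟩).val := c2
  obtain ⟨u, v, p, q, m1, m2, m3, m4, m5, m6, m7⟩ := col_mid hg hM (hz ⟨1, by omega⟩) a2 a3 b1 b3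
  obtain ⟨u', v', p', q', m1', m2', m3', m4', m5', m6', m7'⟩ :=
    col_mid hg hM (hz ⟨g + 2, by omega⟩) c2 c3 d1 d3
  have m1v : u.val < (z ⟨1, by omega⟩).val := m1
  have hv : v.val < o1.val + g := by
    by_contra hcon
    exact m5 (col_one hg hM.1 b3 (u := u) (v := v) (by show u.val < o1.val; omega)
      (by omega) m3 m4 m6 m7)
  have h1 : p = q' := col_one hg hM.1 c3 (u := u) (v := v') (by show u.val < o2.val; omega)
    (by omega) m3 m4' m6 m7'
  have h2 : q = q' := col_one hg hM.1 c3 (u := v) (v := v') (by show v.val < o2.val; omega)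
    (by omega) m4 m4' m7 m7'
  exact m5 (h1.trans h2.symm)

theorem bounded_diag {g : ℕ} (hg : 1 ≤ g) : Bounded (Av (Fam g g)) :=
  ⟨⟨3, fun _ hM i => row_bound hg hM i⟩, ⟨g + 3, fun _ hM j => col_bound hg hM j⟩⟩

/-! ### The unbounded classes -/

/-- one-entries of the witness -/
def Wit (a t x c : ℕ) : Prop :=
  (x = 0 ∧ c % 2 = 0) ∨ ∃ ρ, 1 ≤ ρ ∧ x = a * ρ ∧ (c + 2 * ρ = 2 * t ∨ c + 2 * ρ = 2 * t + 4)

open Classical in
/-- the witness matrix -/
noncomputable def wit (a t : ℕ) : Fin (a * (t + 1) + 1) → Fin (2 * t + 1) → Bool :=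
  fun x c => decide (Wit a t x.val c.val)

lemma wit_iff {a t : ℕ} (x : Fin (a * (t + 1) + 1)) (c : Fin (2 * t + 1)) :
    wit a t x c = true ↔ Wit a t x.val c.val := by
  simp [wit]

lemma wit_pair {a t x x' c c' : ℕ} (h0 : 0 < x) (hx : x < x') (hc : c < c')
    (h1 : Wit a t x c) (h2 : Wit a t x' c') : x' = x + a ∧ c' = c + 2 ∧ c % 2 = 0 := by
  rcases h1 with ⟨h, _⟩ | ⟨ρ, hρ, hxρ, h1⟩
  · omega
  rcases h2 with ⟨h, _⟩ | ⟨ρ', hρ', hxρ', h2⟩
  · omega
  have hlt : ρ < ρ' := by
    rw [hxρ, hxρ'] at hx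
    exact Nat.lt_of_mul_lt_mul_left hx
  have : ρ' = ρ + 1 := by omega
  subst this
  refine ⟨?_, by omega, by omega⟩
  rw [hxρ, hxρ']
  ring

lemma wit_even {a t x c : ℕ} (h : Wit a t x c) : c % 2 = 0 := by
  rcases h with ⟨_, h⟩ | ⟨ρ, _, _, h⟩
  · exact h
  · omega

lemma wit_mem {a b t : ℕ} (ha : 1 ≤ a) (hab : a < b) :
    (⟨a * (t + 1) + 1, 2 * t + 1, wit a t⟩ : BMat) ∈ Av (Fam a b) := by
  rw [mem_Av_Fam ha (by omega)]
  constructor
  · rintro ⟨r1, r2, r3, κ, h12, h23, hκ, e1, e2, e3⟩
    have e1' : Wit a t r1.val (κ 1).val := (wit_iff _ _).mp e1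
    have e2' : Wit a t r2.val (κ 0).val := (wit_iff _ _).mp e2
    have e3' : Wit a t r3.val (κ 2).val := (wit_iff _ _).mp e3
    have k1 : (κ 0).val < (κ 1).val := hκ (by decide)
    have k2 : (κ 1).val < (κ 2).val := hκ (by decide)
    have l1 : r1.val < r2.val := h12
    have := wit_pair (by omega) (by omega) (k1.trans k2) e2' e3'
    have := wit_even e1'
    omega
  · rintro ⟨r1, r2, r3, κ, h12, h23, hκ, e1, e2, e3⟩
    have e2' : Wit a t r2.val (κ 0).val := (wit_iff _ _).mp e2
    have e3' : Wit a t r3.val (κ 1).val := (wit_iff _ _).mp e3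
    have k1 : (κ 0).val < (κ 1).val := hκ (by decide)
    have l1 : r1.val < r2.val := h12
    have := wit_pair (by omega) (by omega) k1 e2' e3'
    omega

theorem unbounded_off {a b : ℕ} (ha : 1 ≤ a) (hab : a < b) : ¬ RowBounded (Av (Fam a b)) := by
  rintro ⟨K, hK⟩
  set t := K + 1 with ht
  obtain ⟨B, hB, hAB⟩ := exists_critical _ _ _ _ (wit_mem (t := t) ha hab)
  have h1 := hK _ hB ⟨0, by show 0 < a * (t + 1) + 1; omega⟩
  have hav := (mem_Av_Fam ha (by omega)).mp hB.1
  have h2 : t ≤ zeroRuns (fun j => B ⟨0, by omega⟩ j) := by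
    refine runs_lower _ (fun j : Fin t => ⟨2 * j.val + 1, by omega⟩) ?_ ?_
    · intro j
      by_contra hne
      have h3 : B ⟨0, by omega⟩ ⟨2 * j.val + 1, by omega⟩ = true := by
        simpa using hne
      have hj := j.isLt
      have hle : a * (t - j.val) ≤ a * (t + 1) := Nat.mul_le_mul_left a (by omega)
      have hle' : a * (t - j.val + 1) ≤ a * (t + 1) := Nat.mul_le_mul_left a (by omega)
      have hpos : 0 < a * (t - j.val) := Nat.mul_pos (by omega) (by omega)
      apply hav.1
      refine hasP (M := ⟨a * (t + 1) + 1, 2 * t + 1, B⟩)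
        (r1 := ⟨0, by show 0 < a * (t + 1) + 1; omega⟩)
        (r2 := ⟨a * (t - j.val), by show a * (t - j.val) < a * (t + 1) + 1; omega⟩)
        (r3 := ⟨a * (t - j.val + 1), by show a * (t - j.val + 1) < a * (t + 1) + 1; omega⟩)
        (c1 := ⟨2 * j.val, by show 2 * j.val < 2 * t + 1; omega⟩)
        (c2 := ⟨2 * j.val + 1, by show 2 * j.val + 1 < 2 * t + 1; omega⟩)
        (c3 := ⟨2 * j.val + 2, by show 2 * j.val + 2 < 2 * t + 1; omega⟩) hpos ?_ ?_ ?_ h3 ?_ ?_
      · show a * (t - j.val) + a ≤ a * (t - j.val + 1)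
        rw [Nat.mul_succ]
      · show 2 * j.val < 2 * j.val + 1
        omega
      · show 2 * j.val + 1 < 2 * j.val + 2
        omega
      · apply hAB
        rw [wit_iff]
        right
        exact ⟨t - j.val, by omega, rfl, Or.inl (by show 2 * j.val + 2 * (t - j.val) = 2 * t; omega)⟩
      · apply hAB
        rw [wit_iff]
        right
        exact ⟨t - j.val + 1, by omega, rfl,
          Or.inr (by show 2 * j.val + 2 + 2 * (t - j.val + 1) = 2 * t + 4; omega)⟩
    · intro j j' hjj
      have hjj' : j.val < j'.val := hjj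
      have := j'.isLt
      refine ⟨⟨2 * j.val + 2, by omega⟩, ?_, ?_, ?_⟩
      · show 2 * j.val + 1 < 2 * j.val + 2
        omega
      · show 2 * j.val + 2 < 2 * j'.val + 1
        omega
      · apply hAB
        rw [wit_iff]
        left
        exact ⟨rfl, by show (2 * j.val + 2) % 2 = 0; omega⟩
  have h1' : zeroRuns (fun j => B ⟨0, by omega⟩ j) ≤ K := h1
  omega

/-! ### Inserting empty rows -/

lemma pat_iff {g : ℕ} {p q s : Fin 3} (x : Fin (pat g p q s).r) (y : Fin (pat g p q s).c) :
    (pat g p q s).e x y = true ↔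
      (x.val = 0 ∧ y = p) ∨ (x.val = 1 ∧ y = q) ∨ (x.val = g + 1 ∧ y = s) := by
  simp [pat]

lemma inserts_pat {g g' : ℕ} (hg : 1 ≤ g) (h : g ≤ g') (p q s : Fin 3) :
    Inserts (pat g p q s) (pat g' p q s) := by
  refine ⟨fun x => ⟨if x.val ≤ 1 then x.val else x.val + (g' - g), ?_⟩, fun y => y, ?_,
    fun _ _ h => h, ?_, ?_⟩
  · have : x.val < g + 2 := x.isLt
    show _ < g' + 2
    split_ifs <;> omega
  · intro x y hxy
    have hxy' : x.val < y.val := hxy
    rw [Fin.lt_def]
    dsimp only
    split_ifs <;> omega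
  · intro x y
    have : x.val < g + 2 := x.isLt
    rw [Bool.eq_iff_iff]
    refine Iff.trans (pat_iff _ _) (Iff.trans ?_ (pat_iff _ _).symm)
    dsimp only
    split_ifs with h1
    · have h2 : ¬ (x.val = g + 1) := by omega
      have h3 : ¬ (x.val = g' + 1) := by omega
      simp only [h2, h3, false_and]
      exact Iff.rfl
    · have h2 : ¬ (x.val = 0) := by omega
      have h3 : ¬ (x.val = 1) := by omega
      have h4 : ¬ (x.val + (g' - g) = 0) := by omega
      have h5 : ¬ (x.val + (g' - g) = 1) := by omega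
      have h6 : x.val + (g' - g) = g' + 1 ↔ x.val = g + 1 := by omega
      simp only [h2, h3, h4, h5, h6, false_and, false_or]
      exact Iff.rfl
  · intro x y hxy
    have hx : x.val < g' + 2 := x.isLt
    rcases hxy with hxy | hxy
    · rw [← Bool.not_eq_true]
      intro hcon
      rcases (pat_iff x y).mp hcon with (⟨h1, _⟩ | ⟨h1, _⟩ | ⟨h1, _⟩)
      · apply hxy
        refine ⟨⟨0, by show 0 < g + 2; omega⟩, Fin.ext ?_⟩
        simp [h1]
      · apply hxy
        refine ⟨⟨1, by show 1 < g + 2; omega⟩, Fin.ext ?_⟩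
        simp [h1]
      · apply hxy
        refine ⟨⟨g + 1, by show g + 1 < g + 2; omega⟩, Fin.ext ?_⟩
        have : ¬ (g + 1 ≤ 1) := by omega
        simp only [this, if_false]
        omega
    · exact absurd ⟨y, rfl⟩ hxy

lemma pat_ne (a b : ℕ) : pat b 2 0 1 ≠ pat a 1 0 2 := by
  intro h
  have h1 : ∀ P : BMat, P = pat a 1 0 2 → ∃ (h : 0 < P.r) (h' : 1 < P.c),
      P.e ⟨0, h⟩ ⟨1, h'⟩ = true := by
    rintro P rfl
    exact ⟨by show 0 < a + 2; omega, by show 1 < 3; omega, (pat_iff _ _).mpr (Or.inl ⟨rfl, rfl⟩)⟩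
  obtain ⟨h2, h3, h4⟩ := h1 _ h
  have h5 := (pat_iff _ _).mp h4
  rcases h5 with ⟨_, h5⟩ | ⟨h5, _⟩ | ⟨h5, _⟩
  · have h6 : (1 : ℕ) = 2 := congrArg Fin.val h5
    omega
  · simp at h5
  · simp at h5

lemma isPlus_Fam {a b a' b' : ℕ} (ha : 1 ≤ a) (hb : 1 ≤ b) (haa : a ≤ a') (hbb : b ≤ b') :
    IsPlus (Fam a b) (Fam a' b') := by
  classical
  refine ⟨fun P => if P = pat a 1 0 2 then pat a' 1 0 2 else pat b' 2 0 1, ?_, ?_⟩
  · intro P hP
    rcases hP with rfl | hP
    · simp only [if_true]
      exact inserts_pat ha haa _ _ _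
    · rw [Set.mem_singleton_iff] at hP
      subst hP
      simp only [pat_ne, if_false]
      exact inserts_pat hb hbb _ _ _
  · unfold Fam
    rw [Set.image_pair]
    simp only [if_true, pat_ne, if_false]

/-- **Main result.** Boundedness of `Av(F)` and of `Av(F')`, where `F'` is obtained from `F` by
inserting empty lines into its patterns, are independent of each other. -/
theorem result :
    -- the equivalence of Q1 is false
    ¬ (∀ F F' : Set BMat, IsPlus F F' → (Bounded (Av F') ↔ Bounded (Av F))) ∧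
    -- both implications fail, already for sets of two patterns
    (∃ F F' : Set BMat, F.ncard = 2 ∧ IsPlus F F' ∧ Bounded (Av F) ∧ ¬ RowBounded (Av F')) ∧
    (∃ F F' : Set BMat, F.ncard = 2 ∧ IsPlus F F' ∧ ¬ RowBounded (Av F) ∧ Bounded (Av F')) ∧
    -- the explicit patterns
    (∀ g, 1 ≤ g → Bounded (Av (Fam g g))) ∧
    (∀ a b, 1 ≤ a → a < b → ¬ RowBounded (Av (Fam a b))) ∧
    (∀ a b a' b', 1 ≤ a → 1 ≤ b → a ≤ a' → b ≤ b' → IsPlus (Fam a b) (Fam a' b')) := by
  have hcard : ∀ a b, (Fam a b).ncard = 2 := fun a b => Set.ncard_pair (pat_ne a b).symm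
  refine ⟨?_, ⟨Fam 1 1, Fam 2 3, hcard _ _, isPlus_Fam (by norm_num) (by norm_num) (by norm_num)
    (by norm_num), bounded_diag le_rfl, unbounded_off (by norm_num) (by norm_num)⟩,
    ⟨Fam 2 3, Fam 4 4, hcard _ _, isPlus_Fam (by norm_num) (by norm_num) (by norm_num)
    (by norm_num), unbounded_off (by norm_num) (by norm_num), bounded_diag (by norm_num)⟩,
    fun g hg => bounded_diag hg, fun a b ha hab => unbounded_off ha hab,
    fun a b a' b' ha hb haa hbb => isPlus_Fam ha hb haa hbb⟩
  intro h
  have h1 := (h (Fam 1 1) (Fam 1 2) (isPlus_Fam le_rfl le_rfl le_rfl (by norm_num))).mpr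
    (bounded_diag le_rfl)
  exact unbounded_off le_rfl (by norm_num) h1.1

end Pool.Agent.Results.MP_5adcc8_co.PlusFails
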